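import Mathlib

namespace Pool.Agent.Results.MP_349919_co.ConvexAll

/-- The rectangular lattice generated by `(1,0)` and `(0,√m)` in the plane `ℂ`. -/
def Lam (m : ℕ) : Set ℂ := {z | ∃ a b : ℤ, z.re = a ∧ z.im = b * Real.sqrt m}

/-- Strictly convex `n`-gon with vertices listed counterclockwise: every vertex other than the
two ends of an edge lies strictly to the left of that directed edge. -/
def IsConvexPolygon {n : ℕ} (v : Fin n → ℂ) : Prop :=
  3 ≤ n ∧ ∀ i j, j ≠ i → j ≠ finRotate n i →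
    0 < (v (finRotate n i) - v i).re * (v j - v i).im -
      (v (finRotate n i) - v i).im * (v j - v i).re

/-- All sides have the same positive length. -/
def IsEquilateral {n : ℕ} (v : Fin n → ℂ) : Prop :=
  ∃ l : ℝ, 0 < l ∧ ∀ i, dist (v i) (v (finRotate n i)) = l

open Finset

variable {m : ℕ}

lemma sq_s (m : ℕ) : Real.sqrt m * Real.sqrt m = m := Real.mul_self_sqrt (by positivity)

lemma Lam.zero : (0 : ℂ) ∈ Lam m := ⟨0, 0, by simp, by simp⟩

lemma Lam.add {z w : ℂ} (hz : z ∈ Lam m) (hw : w ∈ Lam m) : z + w ∈ Lam m := by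
  obtain ⟨a, b, h1, h2⟩ := hz
  obtain ⟨c, d, h3, h4⟩ := hw
  exact ⟨a + c, b + d, by simp [h1, h3], by simp [h2, h4]; ring⟩

lemma Lam.mul {z w : ℂ} (hz : z ∈ Lam m) (hw : w ∈ Lam m) : z * w ∈ Lam m := by
  obtain ⟨a, b, h1, h2⟩ := hz
  obtain ⟨c, d, h3, h4⟩ := hw
  refine ⟨a * c - b * d * m, a * d + b * c, ?_, ?_⟩
  · simp only [Complex.mul_re, h1, h2, h3, h4]
    push_cast
    linear_combination (-(b * d) : ℝ) * sq_s m
  · simp only [Complex.mul_im, h1, h2, h3, h4]
    push_cast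
    ring

lemma Lam.int (a : ℤ) : (a : ℂ) ∈ Lam m := ⟨a, 0, by simp, by simp⟩

lemma Lam.nat (a : ℕ) : (a : ℂ) ∈ Lam m := ⟨a, 0, by simp, by simp⟩

lemma Lam.conj {z : ℂ} (hz : z ∈ Lam m) : (starRingEnd ℂ) z ∈ Lam m := by
  obtain ⟨a, b, h1, h2⟩ := hz
  exact ⟨a, -b, by simp [h1], by simp [h2]⟩

lemma Lam.sum {ι : Type} (s : Finset ι) (f : ι → ℂ) (h : ∀ i ∈ s, f i ∈ Lam m) :
    ∑ i ∈ s, f i ∈ Lam m :=
  Finset.sum_induction f (· ∈ Lam m) (fun _ _ => Lam.add) Lam.zero h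

/-- Unit vectors with a multiple in the lattice. -/
def U (m : ℕ) : Set ℂ := {z | ‖z‖ = 1 ∧ ∃ D : ℕ, 0 < D ∧ (D : ℂ) * z ∈ Lam m}

lemma U.ne {z : ℂ} (hz : z ∈ U m) : z ≠ 0 := by
  rintro rfl
  simpa using hz.1

lemma U.mul {z w : ℂ} (hz : z ∈ U m) (hw : w ∈ U m) : z * w ∈ U m := by
  obtain ⟨h1, D, hD, h2⟩ := hz
  obtain ⟨h3, E, hE, h4⟩ := hw
  refine ⟨by simp [h1, h3], D * E, by positivity, ?_⟩
  convert Lam.mul h2 h4 using 1
  push_cast
  ring

lemma U.one : (1 : ℂ) ∈ U m := ⟨by simp, 1, one_pos, by simpa using Lam.nat (m := m) 1⟩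

lemma U.neg {z : ℂ} (hz : z ∈ U m) : -z ∈ U m := by
  obtain ⟨h1, D, hD, h2⟩ := hz
  refine ⟨by simp [h1], D, hD, ?_⟩
  convert Lam.mul (Lam.int (-1)) h2 using 1
  push_cast
  ring

lemma U.conj {z : ℂ} (hz : z ∈ U m) : (starRingEnd ℂ) z ∈ U m := by
  obtain ⟨h1, D, hD, h2⟩ := hz
  refine ⟨by simp [h1], D, hD, ?_⟩
  simpa using Lam.conj h2

lemma U.inv {z : ℂ} (hz : z ∈ U m) : z⁻¹ ∈ U m := by
  rw [Complex.inv_eq_conj hz.1]
  exact U.conj hz

/-- The rational parametrisation of unit vectors. -/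
noncomputable def uu (m t : ℕ) : ℂ :=
  ⟨(t ^ 2 - m) / (t ^ 2 + m), 2 * t * Real.sqrt m / (t ^ 2 + m)⟩

lemma uu_lam (hm : 0 < m) (t : ℕ) : ((t ^ 2 + m : ℕ) : ℂ) * uu m t ∈ Lam m := by
  have : (0 : ℝ) < t ^ 2 + m := by positivity
  refine ⟨t ^ 2 - m, 2 * t, ?_, ?_⟩
  · rw [← Complex.ofReal_natCast, Complex.re_ofReal_mul, uu]
    push_cast
    field_simp
  · rw [← Complex.ofReal_natCast, Complex.im_ofReal_mul, uu]
    push_cast
    field_simp

lemma uu_norm (hm : 0 < m) (t : ℕ) : ‖uu m t‖ = 1 := by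
  have : (0 : ℝ) < t ^ 2 + m := by positivity
  have h : Complex.normSq (uu m t) = 1 := by
    rw [Complex.normSq_apply, uu]
    field_simp
    linear_combination (4 * (t : ℝ) ^ 2) * sq_s m
  rw [← Complex.sq_norm] at h
  exact (pow_eq_one_iff_of_nonneg (norm_nonneg _) two_ne_zero).1 h

lemma uu_U (hm : 0 < m) (t : ℕ) : uu m t ∈ U m :=
  ⟨uu_norm hm t, t ^ 2 + m, by positivity, uu_lam hm t⟩

lemma uu_inj (hm : 0 < m) : Function.Injective (uu m) := by
  intro a b h
  have h1 := congrArg Complex.re h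
  have ha : (0 : ℝ) < a ^ 2 + m := by positivity
  have hb : (0 : ℝ) < b ^ 2 + m := by positivity
  have hm' : (0 : ℝ) < m := by exact_mod_cast hm
  simp only [uu] at h1
  rw [div_eq_div_iff ha.ne' hb.ne'] at h1
  have h2 : (m : ℝ) * ((a : ℝ) ^ 2 - b ^ 2) = 0 := by linear_combination h1 / 2
  have h3 : (a : ℝ) ^ 2 = b ^ 2 := by
    have := (mul_eq_zero.1 h2).resolve_left hm'.ne'
    linarith
  have h4 : a ^ 2 = b ^ 2 := by exact_mod_cast h3
  exact Nat.pow_left_injective two_ne_zero h4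

lemma uu_avoid (hm : 0 < m) (B : Finset ℂ) : ∃ t, t ≤ B.card ∧ uu m t ∉ B := by
  by_contra hc
  push Not at hc
  have : (range (B.card + 1)).image (uu m) ⊆ B := by
    intro z hz
    obtain ⟨t, ht, rfl⟩ := mem_image.1 hz
    exact hc t (by simpa [Nat.lt_succ_iff] using ht)
  have h := card_le_card this
  rw [card_image_of_injective _ (uu_inj hm), card_range] at h
  omega

lemma rich (hm : 0 < m) (G : Finset ℂ) (h1 : (1 : ℂ) ∈ G) (c : ℕ)
    (hc : 4 * G.card ^ 2 + m ≤ 2 ^ c) (k : ℕ) :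
    ∃ V : Finset ℂ, V.card = 2 ^ k ∧ ∃ D : ℕ, 0 < D ∧ D ≤ 2 ^ (c * k + 4 * k ^ 2) ∧
      (∀ v ∈ V, ‖v‖ = 1 ∧ (D : ℂ) * v ∈ Lam m) ∧
      ∀ v ∈ V, ∀ w ∈ V, v ≠ w → ∀ g ∈ G, v ≠ g * w := by
  classical
  induction k with
  | zero =>
    refine ⟨{1}, by simp, 1, one_pos, by simp, ?_, by simp⟩
    simpa using Lam.nat (m := m) 1
  | succ k ih =>
    obtain ⟨V, hV, D, hD, hD2, hU, hR⟩ := ih
    set B := (G ×ˢ V ×ˢ V).image (fun q => q.1 * q.2.1 / q.2.2) ∪
      (G ×ˢ V ×ˢ V).image (fun q => q.2.1 / (q.1 * q.2.2)) with hB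
    have hBc : B.card ≤ 2 * G.card * 4 ^ k := by
      have e : (G ×ˢ V ×ˢ V).card = G.card * 4 ^ k := by
        rw [card_product, card_product, hV, ← mul_pow]
        norm_num
      have a1 := card_image_le (s := G ×ˢ V ×ˢ V) (f := fun q => q.1 * q.2.1 / q.2.2)
      have a2 := card_image_le (s := G ×ˢ V ×ˢ V) (f := fun q => q.2.1 / (q.1 * q.2.2))
      have a3 := card_union_le ((G ×ˢ V ×ˢ V).image (fun q => q.1 * q.2.1 / q.2.2))
        ((G ×ˢ V ×ˢ V).image (fun q => q.2.1 / (q.1 * q.2.2)))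
      rw [e] at a1 a2
      rw [hB, mul_assoc]
      omega
    obtain ⟨t, ht, hu⟩ := uu_avoid hm B
    set u := uu m t with hud
    have u0 : u ≠ 0 := U.ne (uu_U hm t)
    have v0 : ∀ v ∈ V, v ≠ 0 := by
      rintro v hv rfl
      simpa using (hU _ hv).1
    have b1 : ∀ v ∈ V, ∀ w ∈ V, ∀ g ∈ G, u * v ≠ g * w := by
      intro v hv w hw g hg e
      apply hu
      refine mem_union_left _ (mem_image.2 ⟨(g, w, v), by simp [hv, hw, hg], ?_⟩)
      rw [div_eq_iff (v0 v hv)]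
      exact e.symm
    have b2 : ∀ v ∈ V, ∀ w ∈ V, ∀ g ∈ G, v ≠ g * (u * w) := by
      intro v hv w hw g hg e
      apply hu
      refine mem_union_right _ (mem_image.2 ⟨(g, v, w), by simp [hv, hw, hg], ?_⟩)
      have : g * w ≠ 0 := by
        intro h0
        apply v0 v hv
        rw [e]
        linear_combination u * h0
      rw [div_eq_iff this]
      simp only
      rw [e]
      ring
    refine ⟨V ∪ V.image (u * ·), ?_, D * (t ^ 2 + m), by positivity, ?_, ?_, ?_⟩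
    · rw [card_union_of_disjoint, card_image_of_injective _ (mul_right_injective₀ u0), hV]
      · ring
      · rw [disjoint_left]
        intro v hv hv2
        obtain ⟨w, hw, rfl⟩ := mem_image.1 hv2
        exact b1 w hw _ hv 1 h1 (by simp)
    · have e1 : t ^ 2 + m ≤ 2 ^ c * 16 ^ k := by
        have p1 : t ^ 2 ≤ (2 * G.card * 4 ^ k) ^ 2 := Nat.pow_le_pow_left (ht.trans hBc) 2
        have p2 : (2 * G.card * 4 ^ k) ^ 2 = 4 * G.card ^ 2 * 16 ^ k := by
          rw [mul_pow, mul_pow, ← pow_mul, mul_comm k 2, pow_mul]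
          norm_num
        have p3 : 1 ≤ 16 ^ k := Nat.one_le_pow _ _ (by norm_num)
        nlinarith
      calc D * (t ^ 2 + m) ≤ 2 ^ (c * k + 4 * k ^ 2) * (2 ^ c * 16 ^ k) := Nat.mul_le_mul hD2 e1
        _ = 2 ^ (c * k + 4 * k ^ 2 + c + 4 * k) := by
          rw [show (16 : ℕ) = 2 ^ 4 by norm_num, ← pow_mul, ← pow_add, ← pow_add, add_assoc _ c]
        _ ≤ _ := Nat.pow_le_pow_right two_pos (by nlinarith)
    · intro v hv
      rcases mem_union.1 hv with hv | hv
      · refine ⟨(hU v hv).1, ?_⟩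
        convert Lam.mul (Lam.nat (t ^ 2 + m)) (hU v hv).2 using 1
        push_cast
        ring
      · obtain ⟨w, hw, rfl⟩ := mem_image.1 hv
        refine ⟨by rw [norm_mul, (hU w hw).1, hud, uu_norm hm, one_mul], ?_⟩
        convert Lam.mul (uu_lam hm t) (hU w hw).2 using 1
        push_cast
        ring
    · intro v hv w hw hvw g hg
      rcases mem_union.1 hv with hv | hv <;> rcases mem_union.1 hw with hw | hw
      · exact hR v hv w hw hvw g hg
      · obtain ⟨w', hw', rfl⟩ := mem_image.1 hw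
        exact b2 v hv w' hw' g hg
      · obtain ⟨v', hv', rfl⟩ := mem_image.1 hv
        exact b1 v' hv' w hw g hg
      · obtain ⟨v', hv', rfl⟩ := mem_image.1 hv
        obtain ⟨w', hw', rfl⟩ := mem_image.1 hw
        intro e
        refine hR v' hv' w' hw' (fun h => hvw (by rw [h])) g hg (mul_left_cancel₀ u0 ?_)
        rw [e]
        ring

lemma cube_lt (k : ℕ) (hk : 10 ≤ k) : k ^ 3 < 2 ^ k := by
  induction k, hk using Nat.le_induction with
  | base => norm_num
  | succ k hk ih =>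
    have : (k + 1) ^ 3 ≤ 2 * k ^ 3 := by nlinarith [Nat.mul_le_mul hk (le_refl (k * k))]
    rw [pow_succ 2 k]
    omega

lemma ex_k (c : ℕ) : ∃ k, (c * k + 4 * k ^ 2 + k + 2) + (c * k + 4 * k ^ 2 + k + 2) < 2 ^ k := by
  obtain ⟨k, hk⟩ : ∃ k, k = 2 * c + 20 := ⟨_, rfl⟩
  refine ⟨k, lt_of_le_of_lt ?_ (cube_lt k (by omega))⟩
  have p : k ^ 3 = (2 * c + 20) * k ^ 2 := by rw [← hk]; ring
  have q : 1 ≤ k := by omega
  rw [p]
  nlinarith [Nat.mul_le_mul q (le_refl k), Nat.mul_le_mul q (le_refl (c * k))]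

lemma collide (hm : 0 < m) (G : Finset ℂ) (h1 : (1 : ℂ) ∈ G) :
    ∃ A B : Finset ℂ, A ≠ B ∧ ∑ v ∈ A, v = ∑ v ∈ B, v ∧ (∀ v ∈ A ∪ B, v ∈ U m) ∧
      ∀ v ∈ A ∪ B, ∀ w ∈ A ∪ B, v ≠ w → ∀ g ∈ G, v ≠ g * w := by
  classical
  obtain ⟨c, hc⟩ : ∃ c, 4 * G.card ^ 2 + m ≤ 2 ^ c := ⟨_, Nat.lt_two_pow_self.le⟩
  obtain ⟨k, e3⟩ := ex_k c
  obtain ⟨V, hV, D, hD, hD2, hU, hR⟩ := rich hm G h1 c hc k
  obtain ⟨M, hM⟩ : ∃ M : ℕ, M = D * 2 ^ k := ⟨_, rfl⟩
  obtain ⟨T, hT⟩ : ∃ T : Finset ℂ, T = (Icc (-M : ℤ) M ×ˢ Icc (-M : ℤ) M).image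
    (fun q => (⟨q.1, q.2 * Real.sqrt m⟩ : ℂ)) := ⟨_, rfl⟩
  have hTc : T.card < V.powerset.card := by
    have e1 : T.card ≤ (2 * M + 1) * (2 * M + 1) := by
      rw [hT]
      refine card_image_le.trans ?_
      rw [card_product, Int.card_Icc]
      have : ((M : ℤ) + 1 - -M).toNat = 2 * M + 1 := by omega
      rw [this]
    have e2 : 2 * M + 1 ≤ 2 ^ (c * k + 4 * k ^ 2 + k + 2) := by
      have : M ≤ 2 ^ (c * k + 4 * k ^ 2 + k) := by
        rw [pow_add _ _ k, hM]
        exact Nat.mul_le_mul_right _ hD2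
      have p : 1 ≤ 2 ^ (c * k + 4 * k ^ 2 + k) := Nat.one_le_two_pow
      rw [pow_add _ _ 2]
      omega
    rw [card_powerset, hV]
    calc T.card ≤ _ := e1
      _ ≤ _ := Nat.mul_le_mul e2 e2
      _ = _ := (pow_add _ _ _).symm
      _ < _ := Nat.pow_lt_pow_right (by norm_num) e3
  obtain ⟨A, hA, B, hB, hAB, e⟩ := exists_ne_map_eq_of_card_lt_of_maps_to hTc
    (f := fun A => (D : ℂ) * ∑ v ∈ A, v) (by
      intro A hA
      have hA : A ⊆ V := by simpa using hA
      have hL : (D : ℂ) * ∑ v ∈ A, v ∈ Lam m := by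
        rw [mul_sum]
        exact Lam.sum _ _ (fun v hv => (hU v (hA hv)).2)
      have hN : ‖(D : ℂ) * ∑ v ∈ A, v‖ ≤ M := by
        rw [norm_mul, Complex.norm_natCast, hM]
        push_cast
        gcongr
        refine (norm_sum_le _ _).trans ?_
        rw [sum_congr rfl (fun v hv => (hU v (hA hv)).1)]
        simp only [sum_const, nsmul_eq_mul, mul_one]
        have := card_le_card hA
        rw [hV] at this
        exact_mod_cast this
      obtain ⟨a, b, ha, hb⟩ := hL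
      have r1 := (Complex.abs_re_le_norm _).trans hN
      have r2 := (Complex.abs_im_le_norm _).trans hN
      rw [ha] at r1
      rw [hb, abs_mul, abs_of_nonneg (Real.sqrt_nonneg _)] at r2
      have s1 : (1 : ℝ) ≤ Real.sqrt m := Real.one_le_sqrt.2 (by exact_mod_cast hm)
      have r3 : |(b : ℝ)| ≤ M := by nlinarith [abs_nonneg (b : ℝ)]
      have r4 : |a| ≤ M := by exact_mod_cast r1
      have r5 : |b| ≤ M := by exact_mod_cast r3
      rw [abs_le] at r4 r5
      simp only [hT, coe_image]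
      exact ⟨(a, b), by simp [r4, r5], Complex.ext ha.symm hb.symm⟩)
  have hA : A ⊆ V := by simpa using hA
  have hB : B ⊆ V := by simpa using hB
  have hs := union_subset hA hB
  have D0 : (D : ℂ) ≠ 0 := by exact_mod_cast hD.ne'
  exact ⟨A, B, hAB, mul_left_cancel₀ D0 e, fun v hv => ⟨(hU v (hs hv)).1, D, hD, (hU v (hs hv)).2⟩,
    fun v hv w hw => hR v (hs hv) w (hs hw)⟩

lemma split_one (hm : 0 < m) (F : Finset ℂ) :
    ∃ S : Finset ℂ, (∀ s ∈ S, s ∈ U m ∧ s ∉ F) ∧ ∑ s ∈ S, s = 1 := by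
  classical
  set G := insert 1 (insert (-1) (F ∪ F.image (fun z => -z))) with hG
  have key : ∀ A B : Finset ℂ, (∃ x ∈ A, x ∉ B) → ∑ v ∈ A, v = ∑ v ∈ B, v →
      (∀ v ∈ A ∪ B, v ∈ U m) → (∀ v ∈ A ∪ B, ∀ w ∈ A ∪ B, v ≠ w → ∀ g ∈ G, v ≠ g * w) →
      ∃ S : Finset ℂ, (∀ s ∈ S, s ∈ U m ∧ s ∉ F) ∧ ∑ s ∈ S, s = 1 := by
    rintro A B ⟨x, hxA, hxB⟩ e hU hR
    have hx : x ∈ A ∪ B := mem_union_left _ hxA
    have x0 := U.ne (hU x hx)
    have m1 : ∀ v ∈ B \ A, v ∈ A ∪ B ∧ v ≠ x := fun v hv =>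
      ⟨mem_union_right _ (mem_sdiff.1 hv).1, fun h => hxB (h ▸ (mem_sdiff.1 hv).1)⟩
    have m2 : ∀ v ∈ (A \ B).erase x, v ∈ A ∪ B ∧ v ≠ x := fun v hv =>
      ⟨mem_union_left _ (mem_sdiff.1 (mem_erase.1 hv).2).1, (mem_erase.1 hv).1⟩
    refine ⟨(B \ A).image (fun v => v * x⁻¹) ∪ ((A \ B).erase x).image (fun v => -v * x⁻¹), ?_, ?_⟩
    · intro s hs
      rcases mem_union.1 hs with hs | hs <;> obtain ⟨v, hv, rfl⟩ := mem_image.1 hs
      · refine ⟨U.mul (hU v (m1 v hv).1) (U.inv (hU x hx)), fun hF => ?_⟩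
        refine hR v (m1 v hv).1 x hx (m1 v hv).2 (v * x⁻¹) (by simp [hG, hF]) ?_
        field_simp
      · refine ⟨U.mul (U.neg (hU v (m2 v hv).1)) (U.inv (hU x hx)), fun hF => ?_⟩
        refine hR v (m2 v hv).1 x hx (m2 v hv).2 (-(-v * x⁻¹)) ?_ ?_
        · exact mem_insert_of_mem (mem_insert_of_mem (mem_union_right _ (mem_image_of_mem _ hF)))
        · field_simp
    · have i0 : x⁻¹ ≠ 0 := inv_ne_zero x0
      rw [sum_union, sum_image, sum_image, ← sum_mul, ← sum_mul, sum_neg_distrib]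
      · have e1 := sum_sdiff_sub_sum_sdiff (s₁ := A) (s₂ := B) (f := fun v : ℂ => v)
        have e2 := add_sum_erase (A \ B) (fun v : ℂ => v) (mem_sdiff.2 ⟨hxA, hxB⟩)
        field_simp
        linear_combination e1 - e - e2
      · intro a _ b _ h
        simpa [x0] using h
      · intro a _ b _ h
        simpa [x0] using h
      · rw [disjoint_left]
        intro s hs hs2
        obtain ⟨v, hv, rfl⟩ := mem_image.1 hs
        obtain ⟨w, hw, e2⟩ := mem_image.1 hs2
        have e3 : v = -1 * w := by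
          have := mul_right_cancel₀ i0 e2
          rw [← this]
          ring
        refine hR v (m1 v hv).1 w (m2 w hw).1 ?_ (-1) (by simp [hG]) e3
        rintro rfl
        exact (mem_sdiff.1 hv).2 (mem_sdiff.1 (mem_erase.1 hw).2).1
  obtain ⟨A, B, hAB, e, hU, hR⟩ := collide hm G (by simp [hG])
  by_cases h : ∃ x ∈ A, x ∉ B
  · exact key A B h e hU hR
  · refine key B A ?_ e.symm (by rwa [union_comm]) (by rwa [union_comm])
    by_contra h2
    push Not at h h2
    exact hAB (Subset.antisymm h h2)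

lemma odd_set (hm : m % 4 = 3) :
    ∃ S : Finset ℂ, (∀ s ∈ S, s ∈ U m) ∧ ∑ s ∈ S, s = 0 ∧ S.card % 2 = 1 := by
  classical
  have hm0 : 0 < m := by omega
  by_contra hc
  push Not at hc
  have one : ∀ e ∈ U m, ∀ F : Finset ℂ, ∃ S : Finset ℂ, (∀ s ∈ S, s ∈ U m) ∧ Disjoint F S ∧
      ∑ s ∈ S, s = e ∧ S.card % 2 = 1 := by
    intro e he F
    have e0 := U.ne he
    obtain ⟨S, h1, h2⟩ := split_one hm0 (insert (-1) (F.image (fun z => e⁻¹ * z)))
    have n1 : (-1 : ℂ) ∉ S := fun h => (h1 _ h).2 (by simp)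
    have := hc (insert (-1) S) (by
      intro s hs
      rcases mem_insert.1 hs with rfl | hs
      · exact U.neg U.one
      · exact (h1 s hs).1) (by rw [sum_insert n1, h2]; ring)
    rw [card_insert_of_notMem n1] at this
    refine ⟨S.image (e * ·), ?_, ?_, ?_, ?_⟩
    · intro s hs
      obtain ⟨v, hv, rfl⟩ := mem_image.1 hs
      exact U.mul he (h1 v hv).1
    · rw [disjoint_right]
      intro s hs hF
      obtain ⟨v, hv, rfl⟩ := mem_image.1 hs
      refine (h1 v hv).2 (mem_insert_of_mem (mem_image.2 ⟨_, hF, ?_⟩))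
      field_simp
    · rw [sum_image (fun a _ b _ h => mul_left_cancel₀ e0 h), ← mul_sum, h2, mul_one]
    · rw [card_image_of_injective _ (mul_right_injective₀ e0)]
      omega
  have many : ∀ e ∈ U m, ∀ (k : ℕ) (T : Finset ℂ), (∀ s ∈ T, s ∈ U m) →
      ∃ S : Finset ℂ, (∀ s ∈ S, s ∈ U m) ∧ ∑ s ∈ S, s = ∑ s ∈ T, s + k * e ∧
        S.card % 2 = (T.card + k) % 2 := by
    intro e he k T hT
    induction k with
    | zero => exact ⟨T, hT, by simp, by simp⟩
    | succ k ih =>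
      obtain ⟨S, h1, h2, h3⟩ := ih
      obtain ⟨S', h4, h5, h6, h7⟩ := one e he S
      refine ⟨S ∪ S', ?_, ?_, ?_⟩
      · intro s hs
        rcases mem_union.1 hs with hs | hs
        · exact h1 s hs
        · exact h4 s hs
      · rw [sum_union h5, h2, h6]
        push_cast
        ring
      · rw [card_union_of_disjoint h5]
        omega
  obtain ⟨N, rfl⟩ : ∃ N, m = 4 * N + 3 := ⟨m / 4, by omega⟩
  obtain ⟨S1, a1, a2, a3⟩ := many _ (uu_U hm0 1) (N + 1) ∅ (by simp)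
  obtain ⟨S2, b1, b2, b3⟩ := many _ (U.conj (uu_U hm0 1)) (N + 1) S1 a1
  obtain ⟨S3, c1, c2, c3⟩ := many _ U.one (2 * N + 1) S2 b1
  refine hc S3 c1 ?_ (by rw [card_empty] at a3; omega)
  rw [c2, b2, a2, sum_empty, zero_add, ← mul_add, Complex.add_conj]
  have : (uu (4 * N + 3) 1).re = -(2 * N + 1) / (2 * (N + 1)) := by
    simp only [uu]
    push_cast
    field_simp
    ring
  rw [this]
  have : (N : ℂ) + 1 ≠ 0 := by exact_mod_cast Nat.succ_ne_zero N
  push_cast
  field_simp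
  ring

lemma plus_two (hm : 0 < m) (S : Finset ℂ) (h1 : ∀ s ∈ S, s ∈ U m) (h2 : ∑ s ∈ S, s = 0) (k : ℕ) :
    ∃ S' : Finset ℂ, (∀ s ∈ S', s ∈ U m) ∧ ∑ s ∈ S', s = 0 ∧ S'.card = S.card + 2 * k := by
  classical
  induction k with
  | zero => exact ⟨S, h1, h2, rfl⟩
  | succ k ih =>
    obtain ⟨T, a1, a2, a3⟩ := ih
    obtain ⟨t, -, ht⟩ := uu_avoid hm (T ∪ T.image (fun z => -z))
    have hu := uu_U hm t
    set u := uu m t
    have n1 : -u ∉ T := fun h => ht (mem_union_right _ (mem_image.2 ⟨_, h, by simp⟩))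
    have n2 : u ∉ insert (-u) T := by
      intro h
      rcases mem_insert.1 h with h | h
      · exact U.ne hu (by linear_combination h / 2)
      · exact ht (mem_union_left _ h)
    refine ⟨insert u (insert (-u) T), ?_, ?_, ?_⟩
    · intro s hs
      rcases mem_insert.1 hs with rfl | hs
      · exact hu
      rcases mem_insert.1 hs with rfl | hs
      · exact U.neg hu
      · exact a1 s hs
    · rw [sum_insert n2, sum_insert n1, a2]
      ring
    · rw [card_insert_of_notMem n2, card_insert_of_notMem n1, a3]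
      ring

lemma common (S : Finset ℂ) (h1 : ∀ s ∈ S, s ∈ U m) :
    ∃ D : ℕ, 0 < D ∧ ∀ s ∈ S, (D : ℂ) * s ∈ Lam m := by
  classical
  induction S using Finset.induction_on with
  | empty => exact ⟨1, one_pos, by simp⟩
  | insert a S ha ih =>
    obtain ⟨D, hD, h⟩ := ih (fun s hs => h1 s (mem_insert_of_mem hs))
    obtain ⟨-, E, hE, h2⟩ := h1 a (mem_insert_self _ _)
    refine ⟨D * E, by positivity, fun s hs => ?_⟩
    rcases mem_insert.1 hs with rfl | hs
    · convert Lam.mul (Lam.nat D) h2 using 1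
      push_cast
      ring
    · convert Lam.mul (Lam.nat E) (h s hs) using 1
      push_cast
      ring

lemma sorted (S : Finset ℂ) (h1 : ∀ s ∈ S, ‖s‖ = 1) :
    ∃ θ : ℕ → ℝ, (∀ a b, a < b → b < S.card → θ a < θ b ∧ θ b < θ a + 2 * Real.pi) ∧
      (∀ a, a < S.card → (⟨Real.cos (θ a), Real.sin (θ a)⟩ : ℂ) ∈ S) ∧
      ∑ a ∈ range S.card, (⟨Real.cos (θ a), Real.sin (θ a)⟩ : ℂ) = ∑ s ∈ S, s := by
  classical
  have hrep : ∀ s ∈ S, (⟨Real.cos s.arg, Real.sin s.arg⟩ : ℂ) = s := by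
    intro s hs
    have s0 : s ≠ 0 := by
      rintro rfl
      simpa using h1 _ hs
    apply Complex.ext
    · simp [Complex.cos_arg s0, h1 s hs]
    · simp [Complex.sin_arg, h1 s hs]
  have hinj : Set.InjOn Complex.arg S := by
    intro a ha b hb e
    rw [← hrep a ha, ← hrep b hb, e]
  have hc : (S.image Complex.arg).card = S.card := card_image_of_injOn hinj
  let f := (S.image Complex.arg).orderEmbOfFin hc
  have hf : ∀ a, ∃ s ∈ S, s.arg = f a := fun a => mem_image.1 (orderEmbOfFin_mem _ hc a)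
  refine ⟨fun a => if h : a < S.card then f ⟨a, h⟩ else 0, ?_, ?_, ?_⟩
  · intro a b hab hb
    have ha : a < S.card := hab.trans hb
    simp only [dif_pos ha, dif_pos hb]
    refine ⟨f.strictMono (by exact hab), ?_⟩
    obtain ⟨s, -, hs⟩ := hf ⟨a, ha⟩
    obtain ⟨t, -, ht⟩ := hf ⟨b, hb⟩
    rw [← hs, ← ht]
    linarith [Complex.neg_pi_lt_arg s, Complex.arg_le_pi t]
  · intro a ha
    obtain ⟨s, h, hs⟩ := hf ⟨a, ha⟩
    simp only [dif_pos ha]
    rw [← hs, hrep s h]
    exact h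
  · rw [← sum_congr rfl hrep, ← sum_image (g := Complex.arg)
      (f := fun x => (⟨Real.cos x, Real.sin x⟩ : ℂ)) hinj, ← Fin.sum_univ_eq_sum_range
      (fun a => (⟨Real.cos (if h : a < S.card then f ⟨a, h⟩ else 0),
        Real.sin (if h : a < S.card then f ⟨a, h⟩ else 0)⟩ : ℂ))]
    simp only [Fin.is_lt, dif_pos, Fin.eta]
    rw [← image_orderEmbOfFin_univ (S.image Complex.arg) hc, sum_image]
    exact fun a _ b _ h => f.injective h

lemma signs (n : ℕ) (θ : ℕ → ℝ) (hθ : ∀ a b, a < b → b < n → θ a < θ b ∧ θ b < θ a + 2 * Real.pi)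
    (i : ℕ) (hi : i < n) (h0 : ∑ a ∈ range n, Real.sin (θ a - θ i) = 0) (j : ℕ) (hj : j < n)
    (h1 : j ≠ i) (h2 : j ≠ i + 1) (h3 : j ≠ 0 ∨ i + 1 < n) :
    ∑ a ∈ range i, Real.sin (θ a - θ i) < ∑ a ∈ range j, Real.sin (θ a - θ i) := by
  have pos1 : ∀ x, 0 < x → x < Real.pi → 0 < Real.sin x := fun x => Real.sin_pos_of_pos_of_lt_pi
  have neg1 : ∀ x, -Real.pi < x → x < 0 → Real.sin x < 0 := fun x a b =>
    Real.sin_neg_of_neg_of_neg_pi_lt b a
  have neg2 : ∀ x, Real.pi < x → x < 2 * Real.pi → Real.sin x < 0 := fun x a b => by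
    rw [← Real.sin_sub_two_pi]
    exact neg1 _ (by linarith) (by linarith)
  have pos2 : ∀ x, -(2 * Real.pi) < x → x < -Real.pi → 0 < Real.sin x := fun x a b => by
    rw [← Real.sin_add_two_pi]
    exact pos1 _ (by linarith) (by linarith)
  have le : ∀ a b, a ≤ b → b < n → θ a ≤ θ b := fun a b hab hb => by
    rcases hab.eq_or_lt with rfl | h
    · exact le_rfl
    · exact (hθ a b h hb).1.le
  set d : ℕ → ℝ := fun a => Real.sin (θ a - θ i) with hd
  have di : d i = 0 := by simp [hd]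
  have si : ∑ a ∈ range (i + 1), d a = ∑ a ∈ range i, d a := by rw [sum_range_succ, di, add_zero]
  rcases lt_or_gt_of_ne h1 with hji | hji
  · have e1 := sum_range_add_sum_Ico d hji.le
    by_cases hc : -Real.pi < θ j - θ i
    · have : ∑ a ∈ Ico j i, d a < 0 := by
        apply sum_neg _ (by simpa using hji)
        intro a ha
        rw [mem_Ico] at ha
        exact neg1 _ (by linarith [le j a ha.1 (by omega)]) (by linarith [(hθ a i ha.2 hi).1])
      linarith
    · have e2 := sum_range_add_sum_Ico d (show i + 1 ≤ n by omega)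
      have p1 : ∀ a ∈ range j, 0 < d a := by
        intro a ha
        rw [mem_range] at ha
        exact pos2 _ (by linarith [(hθ a i (by omega) hi).2]) (by linarith [(hθ a j ha hj).1])
      have p2 : ∀ a ∈ Ico (i + 1) n, 0 < d a := by
        intro a ha
        rw [mem_Ico] at ha
        exact pos1 _ (by linarith [(hθ i a (by omega) ha.2).1])
          (by linarith [(hθ j a (by omega) ha.2).2])
      have q1 := sum_nonneg (fun a ha => (p1 a ha).le)
      have q2 := sum_nonneg (fun a ha => (p2 a ha).le)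
      rcases h3 with h3 | h3
      · have := sum_pos p1 (by simpa using h3)
        linarith
      · have := sum_pos p2 (by simpa using h3)
        linarith
  · have e1 := sum_range_add_sum_Ico d (show i + 1 ≤ j by omega)
    by_cases hc : θ (j - 1) - θ i < Real.pi
    · have : 0 < ∑ a ∈ Ico (i + 1) j, d a := by
        apply sum_pos _ (by simp; omega)
        intro a ha
        rw [mem_Ico] at ha
        exact pos1 _ (by linarith [(hθ i a (by omega) (by omega)).1])
          (by linarith [le a (j - 1) (by omega) (by omega)])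
      linarith
    · have e2 := sum_range_add_sum_Ico d hj.le
      have p1 : ∑ a ∈ range i, d a ≤ 0 := by
        apply sum_nonpos
        intro a ha
        rw [mem_range] at ha
        exact (neg1 _ (by linarith [(hθ a (j - 1) (by omega) (by omega)).2])
          (by linarith [(hθ a i ha hi).1])).le
      have p2 : ∑ a ∈ Ico j n, d a < 0 := by
        apply sum_neg _ (by simpa using hj)
        intro a ha
        rw [mem_Ico] at ha
        exact neg2 _ (by linarith [(hθ (j - 1) a (by omega) ha.2).1])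
          (by linarith [(hθ i a (by omega) ha.2).2])
      linarith

lemma polygon (S : Finset ℂ) (h1 : ∀ s ∈ S, s ∈ U m) (h2 : ∑ s ∈ S, s = 0) (n : ℕ)
    (hS : S.card = n) (hn : 3 ≤ n) :
    ∃ v : Fin n → ℂ, (∀ i, v i ∈ Lam m) ∧ IsConvexPolygon v ∧ IsEquilateral v := by
  obtain ⟨D, hD, hL⟩ := common S h1
  obtain ⟨θ, t1, t2, t3⟩ := sorted S (fun s hs => (h1 s hs).1)
  rw [hS] at t1 t2 t3
  rw [h2] at t3
  set e : ℕ → ℂ := fun a => ⟨Real.cos (θ a), Real.sin (θ a)⟩ with he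
  obtain ⟨k, rfl⟩ : ∃ k, n = k + 1 := ⟨n - 1, by omega⟩
  have hrot : ∀ i : Fin (k + 1), ((finRotate (k + 1) i : Fin (k + 1)) : ℕ) =
      if (i : ℕ) = k then (0 : ℕ) else (i : ℕ) + 1 := by
    intro i
    by_cases h : i = Fin.last k
    · subst h
      simp
    · rw [coe_finRotate_of_ne_last h, if_neg (fun h' : (i : ℕ) = k => h (Fin.ext h'))]
  have hstep : ∀ i : Fin (k + 1), ∑ a ∈ range (finRotate (k + 1) i), e a =
      ∑ a ∈ range i, e a + e i := by
    intro i
    rw [hrot, ← sum_range_succ]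
    split_ifs with h
    · rw [h, t3, sum_range_zero]
    · rfl
  have D0 : (0 : ℝ) < D := by exact_mod_cast hD
  refine ⟨fun i => (D : ℂ) * ∑ a ∈ range i, e a, ?_, ⟨hn, ?_⟩, D, D0, ?_⟩
  · intro i
    beta_reduce
    rw [mul_sum]
    exact Lam.sum _ _ (fun a ha => hL _ (t2 a ((mem_range.1 ha).trans i.2)))
  · intro i j hji hjr
    have hs : ∀ l : ℕ, ∑ a ∈ range l, Real.sin (θ a - θ i) =
        (e i).re * (∑ a ∈ range l, e a).im - (e i).im * (∑ a ∈ range l, e a).re := by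
      intro l
      simp only [Complex.re_sum, Complex.im_sum, mul_sum, ← sum_sub_distrib, he, Real.sin_sub]
      exact sum_congr rfl (fun a _ => by ring)
    have := signs (k + 1) θ t1 i i.2 (by rw [hs, t3]; simp) j j.2 (fun h => hji (Fin.ext h))
      (by
        intro h
        apply hjr
        apply Fin.ext
        have := j.2
        rw [hrot, if_neg (by omega), h])
      (by
        by_contra hc
        push Not at hc
        apply hjr
        apply Fin.ext
        have := i.2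
        rw [hrot, if_pos (by omega), hc.1])
    rw [hs, hs] at this
    simp only [hstep, ← Complex.ofReal_natCast, Complex.sub_re, Complex.sub_im, Complex.add_re,
      Complex.add_im, Complex.re_ofReal_mul, Complex.im_ofReal_mul]
    nlinarith [mul_pos (mul_pos D0 D0) (sub_pos.2 this)]
  · intro i
    beta_reduce
    rw [dist_comm, dist_eq_norm, hstep, ← mul_sub, add_sub_cancel_left, norm_mul,
      (h1 _ (t2 i i.2)).1, mul_one, Complex.norm_natCast]

/-- For every `m ≡ 3 (mod 4)` the lattice `Λ(m)` contains convex equilateral `n`-gons for all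
large `n`. -/
theorem result (m : ℕ) (hm : m % 4 = 3) :
    ∃ N : ℕ, ∀ n, N ≤ n →
      ∃ v : Fin n → ℂ, (∀ i, v i ∈ Lam m) ∧ IsConvexPolygon v ∧ IsEquilateral v := by
  obtain ⟨S, h1, h2, h3⟩ := odd_set hm
  refine ⟨S.card + 3, fun n hn => ?_⟩
  rcases Nat.mod_two_eq_zero_or_one n with h | h
  · obtain ⟨T, a1, a2, a3⟩ := plus_two (m := m) (by omega) ∅ (by simp) (by simp) (n / 2)
    exact polygon T a1 a2 n (by rw [a3, card_empty]; omega) (by omega)
  · obtain ⟨T, a1, a2, a3⟩ := plus_two (m := m) (by omega) S h1 h2 ((n - S.card) / 2)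
    exact polygon T a1 a2 n (by omega) (by omega)

end Pool.Agent.Results.MP_349919_co.ConvexAll
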